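import Pool.Agent.Helper95.OD.St

set_option autoImplicit false
set_option linter.unusedVariables false

namespace Pool.Agent.Helper93.OD

open Pool.Agent.Helper95.OD Finset
open scoped Classical

variable {m r : ℕ}

theorem adj_lt (σ : Cfg m r) (u v : Vx m r) (h : u.1 < v.1) :
    (Gr σ).Adj u v ↔ σ ⟨(u.1, v.1), h⟩ u.2 = v.2 := by
  constructor
  · rintro ⟨c, hc, h1 | h1⟩
    · obtain ⟨rfl, rfl⟩ := h1
      exact hc
    · obtain ⟨rfl, rfl⟩ := h1
      exact absurd h (not_lt.mpr (le_of_lt c.1.2))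
  · intro hs
    exact ⟨(⟨(u.1, v.1), h⟩, u.2, v.2), hs, Or.inl ⟨rfl, rfl⟩⟩

theorem adj_ne (σ : Cfg m r) (u v : Vx m r) (h : (Gr σ).Adj u v) : u.1 ≠ v.1 := by
  obtain ⟨c, hc, h1 | h1⟩ := h
  · obtain ⟨rfl, rfl⟩ := h1
    exact ne_of_lt c.1.2
  · obtain ⟨rfl, rfl⟩ := h1
    exact (ne_of_lt c.1.2).symm

theorem adj_unique (σ : Cfg m r) (u v w : Vx m r) (h : (Gr σ).Adj u v) (h' : (Gr σ).Adj u w)
    (hvw : v.1 = w.1) : v = w := by
  obtain ⟨v1, v2⟩ := v
  obtain ⟨w1, w2⟩ := w
  simp only at hvw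
  subst hvw
  rcases lt_or_gt_of_ne (adj_ne σ _ _ h) with h1 | h1
  · have e1 := (adj_lt σ u (v1, v2) h1).1 h
    have e2 := (adj_lt σ u (v1, w2) h1).1 h'
    simp only at e1 e2
    rw [← e1, ← e2]
  · have e1 := (adj_lt σ (v1, v2) u h1).1 h.symm
    have e2 := (adj_lt σ (v1, w2) u h1).1 h'.symm
    simp only at e1 e2
    have : v2 = w2 := (σ ⟨(v1, u.1), h1⟩).injective (e1.trans e2.symm)
    rw [this]

theorem adj_exists (σ : Cfg m r) (u : Vx m r) (i : Fin m) (hi : i ≠ u.1) :
    ∃ p : Fin r, (Gr σ).Adj u (i, p) := by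
  rcases lt_or_gt_of_ne hi with h1 | h1
  · refine ⟨(σ ⟨(i, u.1), h1⟩).symm u.2, ?_⟩
    apply SimpleGraph.Adj.symm
    rw [adj_lt σ (i, (σ ⟨(i, u.1), h1⟩).symm u.2) u h1]
    simp
  · refine ⟨σ ⟨(u.1, i), h1⟩ u.2, ?_⟩
    rw [adj_lt σ u (i, σ ⟨(u.1, i), h1⟩ u.2) h1]

theorem hDG : DG := by
  intro m r s t n σ hm hn1 hn2 hs ht
  have hn : 0 < n := by omega
  have hmr : 0 < m * r := by omega
  have hr : 0 < r := Nat.pos_of_ne_zero (by rintro rfl; simp at hmr)
  have hlt : ∀ k : Fin n, (k : ℕ) / r < m := by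
    intro k
    rw [Nat.div_lt_iff_lt_mul hr]
    exact lt_of_lt_of_le k.2 hn2
  let f : Fin n → Vx m r := fun k => (⟨k / r, hlt k⟩, ⟨k % r, Nat.mod_lt _ hr⟩)
  have hf : Function.Injective f := by
    intro a b hab
    have h1 : (a : ℕ) / r = b / r := by
      have := congrArg (fun z : Vx m r => (z.1 : ℕ)) hab
      simpa [f] using this
    have h2 : (a : ℕ) % r = b % r := by
      have := congrArg (fun z : Vx m r => (z.2 : ℕ)) hab
      simpa [f] using this
    apply Fin.ext
    rw [← Nat.div_add_mod (a : ℕ) r, ← Nat.div_add_mod (b : ℕ) r, h1, h2]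
  let G : SimpleGraph (Fin n) := (Gr σ).comap f
  have hG : ∀ a b, G.Adj a b ↔ (Gr σ).Adj (f a) (f b) := fun a b => Iff.rfl
  -- surjectivity onto the first fibres
  have hsurj : ∀ (i : Fin m) (p : Fin r), (i : ℕ) < m - 1 → ∃ k : Fin n, f k = (i, p) := by
    intro i p hi
    have h1 : (i : ℕ) * r + p < n := by
      have h2 : ((i : ℕ) + 1) * r ≤ (m - 1) * r := Nat.mul_le_mul_right r (by omega)
      have h3 := p.2
      have h4 : ((i : ℕ) + 1) * r = (i : ℕ) * r + r := by ring
      omega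
    refine ⟨⟨(i : ℕ) * r + p, h1⟩, ?_⟩
    have e1 : ((i : ℕ) * r + p) / r = i := by
      rw [mul_comm, Nat.mul_add_div hr, Nat.div_eq_of_lt p.2, add_zero]
    have e2 : ((i : ℕ) * r + p) % r = p := by
      rw [mul_comm, Nat.mul_add_mod, Nat.mod_eq_of_lt p.2]
    apply Prod.ext
    · apply Fin.ext
      exact e1
    · apply Fin.ext
      exact e2
  have hup : ∀ v : Fin n, Nat.card (G.neighborSet v) ≤ m - 1 := by
    intro v
    have h1 : Nat.card (G.neighborSet v) ≤ Nat.card {i : Fin m // i ≠ (f v).1} := by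
      let g : G.neighborSet v → {i : Fin m // i ≠ (f v).1} := fun w =>
        ⟨(f w.1).1, (adj_ne σ (f v) (f w.1) ((hG _ _).1 w.2)).symm⟩
      apply Nat.card_le_card_of_injective g
      intro a b hab
      have h2 : (f a.1).1 = (f b.1).1 := congrArg Subtype.val hab
      have h3 : f a.1 = f b.1 := adj_unique σ (f v) _ _ ((hG _ _).1 a.2) ((hG _ _).1 b.2) h2
      exact Subtype.ext (hf h3)
    refine h1.trans ?_
    rw [Nat.card_eq_fintype_card, Fintype.card_subtype_compl]
    simp
  have hlow : ∀ v : Fin n, m - 2 ≤ Nat.card (G.neighborSet v) := by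
    intro v
    let S : Finset (Fin m) := univ.filter (fun i => i ≠ (f v).1 ∧ (i : ℕ) < m - 1)
    have hS : m - 2 ≤ S.card := by
      have h1 : (univ : Finset (Fin m)) ⊆ insert (f v).1 (insert ⟨m - 1, by omega⟩ S) := by
        intro i _
        by_cases h2 : i = (f v).1
        · rw [h2]; exact Finset.mem_insert_self _ _
        · by_cases h3 : (i : ℕ) < m - 1
          · apply Finset.mem_insert_of_mem
            apply Finset.mem_insert_of_mem
            exact Finset.mem_filter.2 ⟨Finset.mem_univ _, h2, h3⟩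
          · apply Finset.mem_insert_of_mem
            have h4 : i = ⟨m - 1, by omega⟩ := by
              apply Fin.ext
              have := i.2
              simp only
              omega
            rw [h4]
            exact Finset.mem_insert_self _ _
      have h2 := Finset.card_le_card h1
      have h3 := Finset.card_insert_le (f v).1 (insert ⟨m - 1, by omega⟩ S)
      have h4 := Finset.card_insert_le (⟨m - 1, by omega⟩ : Fin m) S
      rw [Finset.card_univ, Fintype.card_fin] at h2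
      omega
    have h1 : ∀ i : S, ∃ k : Fin n, G.Adj v k ∧ (f k).1 = i.1 := by
      intro i
      have hi := Finset.mem_filter.1 i.2
      obtain ⟨p, hp⟩ := adj_exists σ (f v) i.1 hi.2.1
      obtain ⟨k, hk⟩ := hsurj i.1 p hi.2.2
      refine ⟨k, ?_, ?_⟩
      · rw [hG, hk]; exact hp
      · rw [hk]
    choose g hg1 hg2 using h1
    have h2 : Nat.card S ≤ Nat.card (G.neighborSet v) := by
      apply Nat.card_le_card_of_injective (fun i : S => (⟨g i, hg1 i⟩ : G.neighborSet v))
      intro a b hab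
      have h3 : g a = g b := congrArg Subtype.val hab
      apply Subtype.ext
      rw [← hg2 a, ← hg2 b, h3]
    have h3 : Nat.card S = S.card := by
      rw [Nat.card_eq_fintype_card, Fintype.card_coe]
    omega
  refine ⟨G, ?_, ?_, ?_⟩
  · exact SimpleGraph.CliqueFree.comap ⟨(SimpleGraph.Embedding.comap ⟨f, hf⟩ (Gr σ)).toCopy⟩ hs
  · let e : Gᶜ ↪g (Gr σ)ᶜ :=
      { toFun := f
        inj' := hf
        map_rel_iff' := by
          intro a b
          simp only [SimpleGraph.compl_adj, Function.Embedding.coeFn_mk]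
          rw [hG]
          exact and_congr (not_congr hf.eq_iff) Iff.rfl }
    exact SimpleGraph.CliqueFree.comap ⟨e.toCopy⟩ ht
  · intro v w
    have h1 := hup v
    have h2 := hlow w
    omega

end Pool.Agent.Helper93.OD
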